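import Pool.Agent.Helper884.IC.Suf7

set_option linter.unusedSectionVars false
set_option linter.style.haveILetI false
set_option linter.unusedVariables false

open scoped BigOperators Classical MonoidAlgebra TensorProduct
open Representation Pool.Agent.Helper884.IC

noncomputable section

namespace Pool.Agent.Helper884.PK

variable {G : Type} [Group G] [Fintype G]

/-- Schur: commuting operators are scalars -/
lemma schur {V : Type} [AddCommGroup V] [Module ℂ V] [FiniteDimensional ℂ V]
    (rho : Representation ℂ G V) (hirr : rho.IsIrreducible) (T : V →ₗ[ℂ] V)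
    (hcomm : ∀ (h : G) (v : V), T (rho h v) = rho h (T v)) : ∃ c : ℂ, T = c • LinearMap.id := by
  let T' : IntertwiningMap rho rho := T.intertwiningMap_of_isIntertwiningMap rho rho hcomm
  obtain ⟨c, hc⟩ := (Representation.IsIrreducible.algebraMap_intertwiningMap_bijective_of_isAlgClosed
    (ρ := rho)).2 T'
  refine ⟨c, ?_⟩
  ext v
  have := congrArg (fun S : IntertwiningMap rho rho => S v) hc
  have h2 : T' v = T v := rfl
  rw [← h2]
  exact this.symm

lemma irr_nontrivial {V : Type} [AddCommGroup V] [Module ℂ V] [FiniteDimensional ℂ V]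
    (rho : Representation ℂ G V) (hirr : rho.IsIrreducible) : Nontrivial V := by
  by_contra hn
  rw [not_nontrivial_iff_subsingleton] at hn
  have : Subsingleton (Subrepresentation rho) := by
    constructor
    intro a b
    ext x
    have : x = 0 := Subsingleton.elim _ _
    subst this
    simp
  have h5 := hirr.toNontrivial
  exact not_subsingleton (Subrepresentation rho) this

/-- a central element acts by a scalar -/
lemma central_scalar {V : Type} [AddCommGroup V] [Module ℂ V] [FiniteDimensional ℂ V]
    (rho : Representation ℂ G V) (hirr : rho.IsIrreducible) (z : G) (hz : ∀ g : G, g * z = z * g) :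
    ∃ c : ℂ, rho z = c • LinearMap.id ∧ c ^ (orderOf z) = 1 ∧
      (∀ g : G, rho.character (z * g) = c * rho.character g) ∧ (rho z = 1 → c = 1) := by
  obtain ⟨c, hc⟩ := schur rho hirr (rho z) (by
    intro h v
    rw [← Module.End.mul_apply, ← Module.End.mul_apply, ← map_mul, ← map_mul, hz])
  haveI := irr_nontrivial rho hirr
  have hinj : ∀ a b : ℂ, a • (LinearMap.id : V →ₗ[ℂ] V) = b • LinearMap.id → a = b := by
    intro a b hab
    obtain ⟨v, hv⟩ := exists_ne (0 : V)
    have h1 := congrArg (fun S : V →ₗ[ℂ] V => S v) hab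
    simp only [LinearMap.smul_apply, LinearMap.id_apply] at h1
    exact smul_left_injective ℂ hv h1
  have hpow : ∀ n : ℕ, rho (z ^ n) = (c ^ n) • LinearMap.id := by
    intro n
    induction n with
    | zero => rw [pow_zero, pow_zero, map_one, one_smul]; rfl
    | succ n ih =>
      rw [pow_succ, map_mul, ih, hc]
      ext v
      simp only [Module.End.mul_apply, LinearMap.smul_apply, LinearMap.id_apply, pow_succ, mul_smul, map_smul]
      rw [smul_comm]
  refine ⟨c, hc, ?_, ?_, ?_⟩
  · apply hinj
    rw [← hpow, pow_orderOf_eq_one, map_one, one_smul]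
    rfl
  · intro g
    unfold Representation.character
    rw [map_mul, hc, Module.End.mul_eq_comp, LinearMap.smul_comp, LinearMap.id_comp, map_smul, smul_eq_mul]
  · intro h1
    apply hinj
    rw [← hc, h1, one_smul]
    rfl

/-- triple products are natural numbers -/
lemma triple_nat {a b c : G → ℂ} (ha : IsIrrChar a) (hb : IsIrrChar b) (hc : IsIrrChar c) :
    ∃ n : ℕ, B (fun g => a g * b g) c = n := by
  obtain ⟨V, _, _, _, rho, hr, rfl⟩ := ha
  obtain ⟨W, _, _, _, sigma, hs, rfl⟩ := hb
  obtain ⟨U, _, _, _, tau, ht, rfl⟩ := hc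
  haveI : Invertible (Nat.card G : ℂ) := invertibleOfNonzero cardG_ne
  let X : FDRep ℂ G := FDRep.of ((rho.tprod sigma).tprod tau.dual)
  refine ⟨Module.finrank ℂ (invariants X.ρ), ?_⟩
  rw [← FDRep.average_char_eq_finrank_invariants X]
  unfold B
  congr 1
  refine Finset.sum_congr rfl fun g _ => ?_
  have h1 : X.character g = ((rho.tprod sigma).tprod tau.dual).character g := rfl
  rw [h1, Representation.char_tensor, Representation.char_tensor]
  simp only [Pi.mul_apply]
  rw [Representation.char_dual]

/-- degrees are prime to primes not dividing the group order -/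
lemma deg_not_dvd (q : ℕ) [hq : Fact q.Prime] (hqG : ¬ q ∣ Nat.card G) {V : Type} [AddCommGroup V]
    [Module ℂ V] [FiniteDimensional ℂ V] (rho : Representation ℂ G V) (hirr : rho.IsIrreducible) :
    ¬ q ∣ Module.finrank ℂ V := by
  haveI := irr_nontrivial rho hirr
  set n := Module.finrank ℂ V with hn
  have hn0 : (n : ℂ) ≠ 0 := by exact_mod_cast (Module.finrank_pos (R := ℂ) (M := V)).ne'
  have hchi : IsIrrChar rho.character := ⟨V, inferInstance, inferInstance, inferInstance, rho, hirr, rfl⟩
  have hcl := hchi.isClass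
  -- integrality of the central character
  have homega : ∀ x : G, ∃ w : ℂ, IsIntegral ℤ w ∧
      ((Finset.univ.filter (fun y : G => IsConj x y)).card : ℂ) * rho.character x = w * n := by
    intro x
    set K : V →ₗ[ℂ] V := ∑ y ∈ Finset.univ.filter (fun y : G => IsConj x y), rho y with hK
    obtain ⟨w, hw⟩ := schur rho hirr K (by
      intro h v
      rw [hK, LinearMap.sum_apply, LinearMap.sum_apply, map_sum]
      refine Finset.sum_nbij' (fun y => h⁻¹ * y * h) (fun y => h * y * h⁻¹) ?_ ?_ ?_ ?_ ?_
      · intro y hy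
        simp only [Finset.mem_filter, Finset.mem_univ, true_and] at hy ⊢
        exact hy.trans (isConj_iff.mpr ⟨h⁻¹, by group⟩)
      · intro y hy
        simp only [Finset.mem_filter, Finset.mem_univ, true_and] at hy ⊢
        exact hy.trans (isConj_iff.mpr ⟨h, rfl⟩)
      · intro y _; group
      · intro y _; group
      · intro y _
        rw [← Module.End.mul_apply, ← Module.End.mul_apply, ← map_mul, ← map_mul]
        congr 2
        group)
    refine ⟨w, ?_, ?_⟩
    · -- K is the image of an element of the integral group ring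
      let φ : MonoidAlgebra ℤ G →ₐ[ℤ] Module.End ℂ V := MonoidAlgebra.lift ℤ (Module.End ℂ V) G rho
      let k : MonoidAlgebra ℤ G := ∑ y ∈ Finset.univ.filter (fun y : G => IsConj x y),
        MonoidAlgebra.of ℤ G y
      have hk : IsIntegral ℤ k := IsIntegral.of_finite ℤ k
      have h1 : IsIntegral ℤ (φ k) := hk.map φ
      have h2 : φ k = K := by
        simp only [φ, k, map_sum, hK]
        refine Finset.sum_congr rfl fun y _ => ?_
        simp
      rw [h2, hw] at h1
      have h3 : (w • (LinearMap.id : V →ₗ[ℂ] V)) = algebraMap ℂ (Module.End ℂ V) w := rfl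
      rw [h3] at h1
      exact (isIntegral_algebraMap_iff (FaithfulSMul.algebraMap_injective ℂ (Module.End ℂ V))).mp h1
    · have h1 : LinearMap.trace ℂ V K = w * n := by
        rw [hw, map_smul, LinearMap.trace_id, smul_eq_mul]
      rw [← h1, hK, map_sum, Finset.sum_congr rfl (g := fun _ => rho.character x)]
      · rw [Finset.sum_const, nsmul_eq_mul]
      · intro y hy
        obtain ⟨c, rfl⟩ := isConj_iff.mp (Finset.mem_filter.mp hy).2
        exact hcl x c
  intro hdvd
  obtain ⟨n', hn'⟩ := hdvd
  have hconj : ∀ x : G, (Nat.card G : ℂ) = (Nat.card (Subgroup.centralizer ({x} : Set G)) : ℂ)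
      * ((Finset.univ.filter (fun y : G => IsConj x y)).card : ℂ) := by
    intro x
    have h1 := sum_conj_fiber (fun _ : G => (1 : ℂ)) x
    simpa [Nat.card_eq_fintype_card] using h1
  have hmem : (∑ s : G, rho.character s * rho.character s⁻¹ * (Nat.card G / n)) / Nat.card G ∈ OL q := by
    apply conj_sum q (fun s => rho.character s * rho.character s⁻¹ * (Nat.card G / n))
    · intro s y
      simp only
      have : (y * s * y⁻¹)⁻¹ = y * s⁻¹ * y⁻¹ := by group
      rw [this, hcl s y, hcl s⁻¹ y]
    · intro s
      obtain ⟨w, hw1, hw2⟩ := homega s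
      have h1 : rho.character s * rho.character s⁻¹ * (Nat.card G / n)
          / Nat.card (Subgroup.centralizer ({s} : Set G)) = w * rho.character s⁻¹ := by
        have h2 : (Nat.card (Subgroup.centralizer ({s} : Set G)) : ℂ) ≠ 0 := cardC_ne _
        rw [hconj s]
        field_simp
        linear_combination (rho.character s⁻¹) * hw2
      rw [h1]
      exact (OL q).mul_mem (OL_of_int q hw1) (CI_val q _ (CI_one q trivial hchi) s)
  have h1 : (∑ s : G, rho.character s * rho.character s⁻¹ * (Nat.card G / n)) / Nat.card G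
      = Nat.card G / n := by
    rw [← Finset.sum_mul]
    have h2 := B_irr hchi hchi
    rw [if_pos rfl] at h2
    unfold B at h2
    have hG0 : (Nat.card G : ℂ) ≠ 0 := cardG_ne
    have h3 : ∑ s : G, rho.character s * rho.character s⁻¹ = Nat.card G := by
      rw [inv_mul_eq_one₀ hG0] at h2
      exact h2.symm
    rw [h3]
    field_simp
  rw [h1] at hmem
  have hq0 : (q : ℂ) ≠ 0 := by exact_mod_cast hq.out.ne_zero
  have hn'0 : (n' : ℂ) ≠ 0 := by
    intro h
    apply hn0
    rw [hn']
    push_cast
    rw [h, mul_zero]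
  have h2 : (((Nat.card G : ℕ) : ℤ) : ℂ) / q ∈ OL q := by
    have h3 : (((Nat.card G : ℕ) : ℤ) : ℂ) / q = (n' : ℂ) * (Nat.card G / n) := by
      rw [hn']
      push_cast
      field_simp
    rw [h3]
    exact (OL q).mul_mem (OL_nat q n') hmem
  have h3 := OL_div q h2
  exact hqG (by exact_mod_cast h3)

/-- degrees of irreducible representations of `p`-groups are powers of `p` -/
lemma deg_pow (p : ℕ) [hp : Fact p.Prime] (hG : IsPGroup p G) {V : Type} [AddCommGroup V]
    [Module ℂ V] [FiniteDimensional ℂ V] (rho : Representation ℂ G V) (hirr : rho.IsIrreducible) :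
    ∃ a : ℕ, Module.finrank ℂ V = p ^ a := by
  haveI := irr_nontrivial rho hirr
  have hn0 : Module.finrank ℂ V ≠ 0 := (Module.finrank_pos (R := ℂ) (M := V)).ne'
  obtain ⟨m, hm⟩ := hG.exists_card_eq
  refine ⟨(Module.finrank ℂ V).factorization p, ?_⟩
  apply Nat.eq_pow_of_factorization_eq_single hn0
  ext q
  by_cases hqp : q = p
  · rw [hqp, Finsupp.single_eq_same]
  · rw [Finsupp.single_eq_of_ne (Ne.symm (fun h => hqp h.symm))]
    by_cases hq : q.Prime
    · haveI : Fact q.Prime := ⟨hq⟩
      apply Nat.factorization_eq_zero_of_not_dvd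
      apply deg_not_dvd q ?_ rho hirr
      rw [hm]
      intro h
      exact hqp ((Nat.prime_dvd_prime_iff_eq hq hp.out).mp (hq.dvd_of_dvd_pow h))
    · exact Nat.factorization_eq_zero_of_not_prime _ hq

lemma central_in_normal (p : ℕ) [hp : Fact p.Prime] (hG : IsPGroup p G) (N : Subgroup G) [hN : N.Normal]
    (hne : N ≠ ⊥) : ∃ z ∈ N, z ≠ 1 ∧ ∀ g : G, g * z = z * g := by
  letI : MulAction G N := MulAction.compHom N (MulAut.conjNormal : G →* MulAut N)
  have hsmul : ∀ (g : G) (n : N), ((g • n : N) : G) = g * n * g⁻¹ := fun g n => MulAut.conjNormal_apply g n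
  have h1 : IsPGroup p N := hG.to_subgroup N
  haveI : Nontrivial N := by
    rw [Subgroup.nontrivial_iff_ne_bot]
    exact hne
  obtain ⟨n, hn, hcard⟩ := (IsPGroup.nontrivial_iff_card h1).mp inferInstance
  have hdvd : p ∣ Nat.card N := by
    rw [hcard]; exact dvd_pow_self p (by omega)
  have hfix : (1 : N) ∈ MulAction.fixedPoints G N := by
    intro g
    apply Subtype.ext
    rw [hsmul]
    simp
  obtain ⟨b, hb, hne1⟩ := hG.exists_fixed_point_of_prime_dvd_card_of_fixed_point N hdvd hfix
  refine ⟨b, b.2, fun h => hne1 (Subtype.ext h.symm), ?_⟩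
  intro g
  have h2 := congrArg (fun w : N => (w : G)) (hb g)
  simp only [hsmul] at h2
  rw [mul_inv_eq_iff_eq_mul] at h2
  exact h2

end Pool.Agent.Helper884.PK
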