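import Pool.Agent.Helper884.PK.Deg

set_option linter.unusedSectionVars false
set_option linter.style.haveILetI false
set_option linter.unusedVariables false

open scoped BigOperators Classical MonoidAlgebra TensorProduct
open Representation Pool.Agent.Helper884.IC

noncomputable section

namespace Pool.Agent.Helper884.PK

variable {G : Type} [Group G] [Fintype G]

/-- data attached to an irreducible character of a `p`-group at a central element -/
lemma irr_data (p : ℕ) [hp : Fact p.Prime] (hG : IsPGroup p G) (z : G) (hz : ∀ g : G, g * z = z * g)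
    (e : ℕ)
    (hmax : ∀ (V : Type) [AddCommGroup V] [Module ℂ V] [FiniteDimensional ℂ V]
      (rho : Representation ℂ G V), rho.IsIrreducible → Module.finrank ℂ V ≤ p ^ e)
    (hker : ∀ (V : Type) [AddCommGroup V] [Module ℂ V] [FiniteDimensional ℂ V]
      (rho : Representation ℂ G V), rho.IsIrreducible → Module.finrank ℂ V = p ^ e → rho z = 1)
    {chi : G → ℂ} (h : IsIrrChar chi) : ∃ (c : ℂ) (a : ℕ), chi 1 = ((p ^ a : ℕ) : ℂ) ∧ a ≤ e ∧
      c ^ orderOf z = 1 ∧ (∀ g : G, chi (z * g) = c * chi g) ∧ (a = e → c = 1) := by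
  obtain ⟨V, _, _, _, rho, hr, rfl⟩ := h
  obtain ⟨c, hc1, hc2, hc3, hc4⟩ := central_scalar rho hr z hz
  obtain ⟨a, ha⟩ := deg_pow p hG rho hr
  refine ⟨c, a, ?_, ?_, hc2, hc3, ?_⟩
  · rw [← ha]
    simp [Representation.character]
  · have := hmax V rho hr
    rw [ha] at this
    exact (Nat.pow_le_pow_iff_right hp.out.one_lt).mp this
  · intro hae
    apply hc4
    apply hker V rho hr
    rw [ha, hae]

lemma shift_B (a b : G → ℂ) (z : G) (hz : ∀ g : G, g * z = z * g) (c d : ℂ) (hd : d ≠ 0)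
    (ha : ∀ g : G, a (z * g) = c * a g) (hb : ∀ g : G, b (z * g) = d * b g) (hne : B a b ≠ 0) : c = d := by
  have h1 : B a b = c * d⁻¹ * B a b := by
    have hb' : ∀ g : G, b ((z * g)⁻¹) = d⁻¹ * b g⁻¹ := by
      intro g
      have h2 := hb (z * g)⁻¹
      have h3 : z * (z * g)⁻¹ = g⁻¹ := by
        rw [mul_inv_rev, ← mul_assoc, ← hz, mul_assoc, mul_inv_cancel, mul_one]
      rw [h3] at h2
      rw [h2, ← mul_assoc, inv_mul_cancel₀ hd, one_mul]
    have h4 : ∑ g : G, a g * b g⁻¹ = ∑ g : G, a (z * g) * b ((z * g)⁻¹) :=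
      (Fintype.sum_equiv (Equiv.mulLeft z) _ _ fun g => rfl).symm
    unfold B
    conv_lhs => rw [h4]
    simp only [ha, hb']
    rw [Finset.mul_sum, Finset.mul_sum, Finset.mul_sum]
    refine Finset.sum_congr rfl fun g _ => ?_
    ring
  have h2 : (c * d⁻¹ - 1) * B a b = 0 := by linear_combination -h1
  rcases mul_eq_zero.mp h2 with h | h
  · have h3 : c * d⁻¹ = 1 := by linear_combination h
    field_simp at h3
    exact h3
  · exact absurd h hne

/-- a nonzero natural combination of irreducible characters -/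
lemma nat_expand (f : G → ℂ) (hf : IsClass f) (hn : ∀ eta : G → ℂ, IsIrrChar eta → ∃ n : ℕ, B f eta = n) :
    ∃ n : (G → ℂ) → ℕ, (∀ eta ∈ Irr G, B f eta = n eta) ∧ f = ∑ eta ∈ Irr G, (n eta : ℂ) • eta ∧
      B f f = ∑ eta ∈ Irr G, (n eta : ℂ) * n eta := by
  choose! n hn using hn
  have h1 : ∀ eta ∈ Irr G, B f eta = n eta := fun eta h => hn eta (mem_Irr.mp h)
  refine ⟨n, h1, ?_, ?_⟩
  · conv_lhs => rw [expand f hf]
    exact Finset.sum_congr rfl fun eta h => by rw [h1 eta h]
  · rw [B_expand f f hf]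
    exact Finset.sum_congr rfl fun eta h => by rw [B_comm eta f, h1 eta h]

theorem key (p : ℕ) [hp : Fact p.Prime] (hG : IsPGroup p G) (z : G) (hz : ∀ g : G, g * z = z * g)
    (e : ℕ)
    (hmax : ∀ (V : Type) [AddCommGroup V] [Module ℂ V] [FiniteDimensional ℂ V]
      (rho : Representation ℂ G V), rho.IsIrreducible → Module.finrank ℂ V ≤ p ^ e)
    (hker : ∀ (V : Type) [AddCommGroup V] [Module ℂ V] [FiniteDimensional ℂ V]
      (rho : Representation ℂ G V), rho.IsIrreducible → Module.finrank ℂ V = p ^ e → rho z = 1)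
    {chi : G → ℂ} (hchi : IsIrrChar chi) (hchi1 : chi 1 = ((p ^ e : ℕ) : ℂ))
    {psi : G → ℂ} (hpsi : IsIrrChar psi) (ζ : ℂ) (hζ : ∀ g : G, psi (z * g) = ζ * psi g) (hζ1 : ζ ≠ 1)
    (a : ℕ) (ha : psi 1 = ((p ^ a : ℕ) : ℂ)) : 1 ≤ a ∧ (p ≠ 2 → 2 ≤ a) ∧ a < e := by
  have hp0 : (p : ℂ) ≠ 0 := by exact_mod_cast hp.out.ne_zero
  have hpa0 : ∀ k : ℕ, ((p ^ k : ℕ) : ℂ) ≠ 0 := fun k => by
    exact_mod_cast (pow_pos hp.out.pos k).ne'
  have hcast : ∀ k l : ℕ, ((p ^ k : ℕ) : ℂ) = ((p ^ l : ℕ) : ℂ) → k = l := by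
    intro k l h
    have : p ^ k = p ^ l := by exact_mod_cast h
    exact Nat.pow_right_injective hp.out.two_le this
  have hD := fun {c : G → ℂ} (h : IsIrrChar c) => irr_data p hG z hz e hmax hker h
  have hunit : ∀ {c : ℂ}, c ^ orderOf z = 1 → c ≠ 0 := by
    intro c hc h0
    rw [h0, zero_pow (orderOf_pos z).ne'] at hc
    exact zero_ne_one hc
  -- the scalars are determined
  have huniq : ∀ {c : G → ℂ} (k : ℕ), c 1 = ((p ^ k : ℕ) : ℂ) → ∀ x y : ℂ,
      (∀ g : G, c (z * g) = x * c g) → (∀ g : G, c (z * g) = y * c g) → x = y := by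
    intro c k hk x y hx hy
    have h1 := (hx 1).symm.trans (hy 1)
    rw [hk] at h1
    exact mul_right_cancel₀ (hpa0 k) h1
  obtain ⟨cchi, e', hce, _, hcc, hcchi, hccone⟩ := hD hchi
  have hee : e' = e := hcast _ _ (hce.symm.trans hchi1)
  have hc1 : cchi = 1 := hccone hee
  obtain ⟨ζ', a', hpa, hale, hzz, hζ', hzone⟩ := hD hpsi
  have haa : a' = a := hcast _ _ (hpa.symm.trans ha)
  have hζe : ζ' = ζ := huniq a ha ζ' ζ hζ' hζ
  subst hζe
  subst haa
  have hae : a' < e := by
    rcases Nat.lt_or_ge a' e with h | h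
    · exact h
    · exact absurd (hzone (le_antisymm hale h)) hζ1
  -- the product chi psi
  set f : G → ℂ := fun g => chi g * psi g with hf
  have hfc : IsClass f := by
    intro g y
    simp only [hf]
    rw [hchi.isClass g y, hpsi.isClass g y]
  obtain ⟨n, hn1, hn2, _⟩ := nat_expand f hfc (fun eta h => triple_nat hchi hpsi h)
  obtain ⟨theta, hth, hnth⟩ : ∃ theta ∈ Irr G, n theta ≠ 0 := by
    by_contra hcon
    push Not at hcon
    have h1 : f 1 = 0 := by
      rw [hn2]
      simp only [Finset.sum_apply, Pi.smul_apply, smul_eq_mul]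
      apply Finset.sum_eq_zero
      intro eta h
      rw [hcon eta h]
      simp
    simp only [hf] at h1
    rw [hchi1, ha] at h1
    exact (mul_ne_zero (hpa0 e) (hpa0 a')) h1
  have hthi := mem_Irr.mp hth
  obtain ⟨ct, b, hb1, hbe, htz, hct, hctone⟩ := hD hthi
  have hctζ : ζ' = ct := by
    apply shift_B f theta z hz ζ' ct (hunit htz) ?_ hct
    · rw [hn1 theta hth]
      exact_mod_cast hnth
    · intro g
      simp only [hf]
      rw [hcchi, hζ, hc1]
      ring
  have hbe' : b < e := by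
    rcases Nat.lt_or_ge b e with h | h
    · exact h
    · exact absurd (hctζ.trans (hctone (le_antisymm hbe h))) hζ1
  -- theta times conj psi
  set g' : G → ℂ := fun g => theta g * psi g⁻¹ with hg'
  have hgc : IsClass g' := by
    intro g y
    simp only [hg']
    have : (y * g * y⁻¹)⁻¹ = y * g⁻¹ * y⁻¹ := by group
    rw [this, hthi.isClass g y, hpsi.isClass g⁻¹ y]
  have hswap : ∀ eta : G → ℂ, B g' eta = B (fun g => eta g * psi g) theta := by
    intro eta
    rw [B_comm (fun g => eta g * psi g) theta]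
    unfold B
    congr 1
    refine Finset.sum_congr rfl fun g _ => ?_
    simp only [hg']
    ring
  obtain ⟨m, hm1, hm2, hm3⟩ := nat_expand g' hgc (fun eta h => by
    rw [hswap]; exact triple_nat h hpsi hthi)
  have hchiI : chi ∈ Irr G := mem_Irr.mpr hchi
  have hmchi : m chi = n theta := by
    have h1 : (m chi : ℂ) = n theta := by
      rw [← hm1 chi hchiI, hswap, ← hn1 theta hth]
    exact_mod_cast h1
  -- degrees as naturals
  have hdeg : ∀ eta ∈ Irr G, ∃ d : ℕ, eta 1 = d ∧ 1 ≤ d := by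
    intro eta h
    obtain ⟨_, k, hk, _⟩ := hD (mem_Irr.mp h)
    exact ⟨p ^ k, hk, Nat.one_le_pow _ _ hp.out.pos⟩
  choose! dg hdg1 hdg2 using hdeg
  have hdchi : dg chi = p ^ e := by
    have h1 : (dg chi : ℂ) = ((p ^ e : ℕ) : ℂ) := by rw [← hdg1 chi hchiI, hchi1]
    exact_mod_cast h1
  have hsum : p ^ b * p ^ a' = ∑ eta ∈ Irr G, m eta * dg eta := by
    have h1 : g' 1 = ((p ^ b * p ^ a' : ℕ) : ℂ) := by
      simp only [hg', inv_one]
      rw [hb1, ha]
      push_cast
      ring
    rw [hm2] at h1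
    simp only [Finset.sum_apply, Pi.smul_apply, smul_eq_mul] at h1
    have h2 : ∑ eta ∈ Irr G, (m eta : ℂ) * eta 1 = ((∑ eta ∈ Irr G, m eta * dg eta : ℕ) : ℂ) := by
      push_cast
      exact Finset.sum_congr rfl fun eta h => by rw [hdg1 eta h]
    rw [h2] at h1
    exact_mod_cast h1.symm
  have hge : p ^ e ≤ p ^ (b + a') := by
    rw [pow_add, hsum]
    calc p ^ e ≤ m chi * dg chi := by
          rw [hdchi, hmchi]
          exact Nat.le_mul_of_pos_left _ (Nat.pos_of_ne_zero hnth)
      _ ≤ ∑ eta ∈ Irr G, m eta * dg eta :=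
          Finset.single_le_sum (f := fun eta => m eta * dg eta) (fun _ _ => Nat.zero_le _) hchiI
  have hab : e ≤ b + a' := (Nat.pow_le_pow_iff_right hp.out.one_lt).mp hge
  refine ⟨by omega, ?_, hae⟩
  intro hp2
  by_contra hlt
  have ha1 : a' = 1 := by omega
  have hb : b = e - 1 := by omega
  have heq : b + a' = e := by omega
  -- theta times conj psi equals chi
  have hsum' : p ^ e = ∑ eta ∈ Irr G, m eta * dg eta := by
    rw [← hsum, ← pow_add, heq]
  have hsplit : ∑ eta ∈ Irr G, m eta * dg eta = m chi * dg chi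
      + ∑ eta ∈ (Irr G).erase chi, m eta * dg eta :=
    (Finset.add_sum_erase _ _ hchiI).symm
  have hmc : 1 ≤ m chi := by rw [hmchi]; exact Nat.pos_of_ne_zero hnth
  have hmc1 : m chi = 1 ∧ ∑ eta ∈ (Irr G).erase chi, m eta * dg eta = 0 := by
    rw [hsplit, hdchi] at hsum'
    have hpe : 0 < p ^ e := pow_pos hp.out.pos e
    constructor
    · by_contra hne
      have : 2 ≤ m chi := by omega
      have : 2 * p ^ e ≤ m chi * p ^ e := Nat.mul_le_mul_right _ this
      omega
    · have : 1 * p ^ e ≤ m chi * p ^ e := Nat.mul_le_mul_right _ hmc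
      omega
  have hm0 : ∀ eta ∈ (Irr G).erase chi, m eta = 0 := by
    intro eta h
    have h1 := (Finset.sum_eq_zero_iff.mp hmc1.2) eta h
    rcases mul_eq_zero.mp h1 with h2 | h2
    · exact h2
    · have := hdg2 eta (Finset.mem_of_mem_erase h)
      omega
  have hnorm1 : B g' g' = 1 := by
    rw [hm3, ← Finset.add_sum_erase _ _ hchiI, hmc1.1]
    rw [Finset.sum_eq_zero]
    · push_cast; ring
    · intro eta h
      rw [hm0 eta h]
      simp
  -- theta times psi
  set k : G → ℂ := fun g => theta g * psi g with hk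
  have hkc : IsClass k := by
    intro g y
    simp only [hk]
    rw [hthi.isClass g y, hpsi.isClass g y]
  obtain ⟨r, hr1, hr2, hr3⟩ := nat_expand k hkc (fun eta h => triple_nat hthi hpsi h)
  have hnormk : B k k = 1 := by
    rw [← hnorm1]
    unfold B
    congr 1
    refine Finset.sum_congr rfl fun g _ => ?_
    simp only [hk, hg', inv_inv]
    ring
  rw [hnormk] at hr3
  have hr3' : 1 = ∑ eta ∈ Irr G, r eta * r eta := by exact_mod_cast hr3
  obtain ⟨eta, heta, hre⟩ : ∃ eta ∈ Irr G, r eta ≠ 0 := by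
    by_contra hcon
    push Not at hcon
    rw [Finset.sum_eq_zero (fun eta h => by rw [hcon eta h, mul_zero])] at hr3'
    exact one_ne_zero hr3'
  have hsp : ∑ eta ∈ Irr G, r eta * r eta = r eta * r eta
      + ∑ eta' ∈ (Irr G).erase eta, r eta' * r eta' := (Finset.add_sum_erase _ _ heta).symm
  have hre1 : 1 ≤ r eta * r eta := Nat.mul_pos (Nat.pos_of_ne_zero hre) (Nat.pos_of_ne_zero hre)
  have hrest : ∑ eta' ∈ (Irr G).erase eta, r eta' * r eta' = 0 := by omega
  have hreone : r eta = 1 := by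
    have h1 : r eta * r eta = 1 := by omega
    exact Nat.eq_one_of_mul_eq_one_left h1
  have hkeq : k = eta := by
    rw [hr2, ← Finset.add_sum_erase _ _ heta, hreone]
    rw [Finset.sum_eq_zero]
    · simp
    · intro eta' h
      have h1 := (Finset.sum_eq_zero_iff.mp hrest) eta' h
      have h2 : r eta' = 0 := by
        rcases mul_eq_zero.mp h1 with h | h <;> exact h
      rw [h2]
      simp
  obtain ⟨ce, d, hd1, _, _, hce', hceone⟩ := hD (mem_Irr.mp heta)
  have hde : d = e := by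
    apply hcast
    rw [← hd1, ← hkeq]
    simp only [hk]
    rw [hb1, ha, ← heq, pow_add]
    push_cast
    ring
  have hce1 : ce = 1 := hceone hde
  have hsq : ζ' * ζ' = 1 := by
    rw [← hce1]
    apply huniq d hd1 (ζ' * ζ') ce ?_ hce'
    intro g
    rw [← hkeq]
    simp only [hk]
    rw [hct, hζ, ← hctζ]
    ring
  -- odd order
  obtain ⟨j, hj⟩ := (IsPGroup.iff_orderOf.mp hG) z
  have hodd : Odd (orderOf z) := by
    rw [hj]
    exact (hp.out.odd_of_ne_two hp2).pow
  obtain ⟨i, hi⟩ := hodd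
  apply hζ1
  have h1 : ζ' ^ (2 * i + 1) = 1 := by rw [← hi]; exact hzz
  rw [pow_succ, pow_mul, pow_two, hsq, one_pow, one_mul] at h1
  exact h1

end Pool.Agent.Helper884.PK
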