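import Pool.Agent.Helper884.PK.Key

set_option linter.unusedSectionVars false
set_option linter.style.haveILetI false
set_option linter.unusedVariables false

open scoped BigOperators Classical MonoidAlgebra TensorProduct
open Representation Pool.Agent.Helper884.IC

noncomputable section

namespace Pool.Agent.Helper884.PK

variable {G : Type} [Group G] [Fintype G]

/-- the subrepresentations do not change when pulling back along a surjection -/
def subIso {H : Type} [Group H] (f : G →* H) (hf : Function.Surjective f) {V : Type} [AddCommGroup V]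
    [Module ℂ V] (rho : Representation ℂ H V) (sigma : Representation ℂ G V)
    (h : ∀ g, sigma g = rho (f g)) : Subrepresentation sigma ≃o Subrepresentation rho where
  toFun W := ⟨W.toSubmodule, by
    intro g v hv
    obtain ⟨g', rfl⟩ := hf g
    rw [← h]
    exact W.apply_mem_toSubmodule g' hv⟩
  invFun W := ⟨W.toSubmodule, by
    intro g v hv
    rw [h]
    exact W.apply_mem_toSubmodule (f g) hv⟩
  left_inv W := rfl
  right_inv W := rfl
  map_rel_iff' := Iff.rfl

lemma irr_pull {H : Type} [Group H] (f : G →* H) (hf : Function.Surjective f) {V : Type} [AddCommGroup V]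
    [Module ℂ V] (rho : Representation ℂ H V) (sigma : Representation ℂ G V)
    (h : ∀ g, sigma g = rho (f g)) : sigma.IsIrreducible ↔ rho.IsIrreducible :=
  OrderIso.isSimpleOrder_iff (subIso f hf rho sigma h)

/-- the subgroup acting trivially in all irreducible representations of degree `D` -/
def NN (G : Type) [Group G] (D : ℕ) : Subgroup G where
  carrier := {g | ∀ (V : Type) [AddCommGroup V] [Module ℂ V] [FiniteDimensional ℂ V]
      (rho : Representation ℂ G V), rho.IsIrreducible → Module.finrank ℂ V = D → rho g = 1}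
  one_mem' := by
    intro V _ _ _ rho _ _
    exact map_one rho
  mul_mem' := by
    intro a b ha hb V _ _ _ rho h1 h2
    rw [map_mul, ha V rho h1 h2, hb V rho h1 h2, mul_one]
  inv_mem' := by
    intro a ha V _ _ _ rho h1 h2
    have h3 : rho (a⁻¹) * rho a = 1 := by rw [← map_mul, inv_mul_cancel, map_one]
    rw [ha V rho h1 h2, mul_one] at h3
    exact h3

instance NN_normal (G : Type) [Group G] (D : ℕ) : (NN G D).Normal := by
  constructor
  intro n hn g V _ _ _ rho h1 h2
  have h3 : rho n = 1 := hn V rho h1 h2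
  rw [map_mul, map_mul, h3, mul_one, ← map_mul, mul_inv_cancel, map_one]

/-- kernel of a representation -/
def kerR {V : Type} [AddCommGroup V] [Module ℂ V] (rho : Representation ℂ G V) : Subgroup G where
  carrier := {g | rho g = 1}
  one_mem' := map_one rho
  mul_mem' := by
    intro a b ha hb
    show rho (a * b) = 1
    have ha' : rho a = 1 := ha
    have hb' : rho b = 1 := hb
    rw [map_mul, ha', hb', mul_one]
  inv_mem' := by
    intro a ha
    show rho a⁻¹ = 1
    have ha' : rho a = 1 := ha
    have h3 : rho (a⁻¹) * rho a = 1 := by rw [← map_mul, inv_mul_cancel, map_one]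
    rw [ha', mul_one] at h3
    exact h3

instance kerR_normal {V : Type} [AddCommGroup V] [Module ℂ V] (rho : Representation ℂ G V) :
    (kerR rho).Normal := by
  constructor
  intro n hn g
  show rho (g * n * g⁻¹) = 1
  have h3 : rho n = 1 := hn
  rw [map_mul, map_mul, h3, mul_one, ← map_mul, mul_inv_cancel, map_one]

/-- descend a representation to a quotient -/
lemma descend (K : Subgroup G) [K.Normal] {V : Type} [AddCommGroup V] [Module ℂ V]
    (rho : Representation ℂ G V) (h : ∀ k ∈ K, rho k = 1) :
    ∃ rho' : Representation ℂ (G ⧸ K) V, ∀ g, rho g = rho' (QuotientGroup.mk' K g) := by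
  -- values are units
  let u : G →* (V →ₗ[ℂ] V)ˣ := Units.liftRight rho (fun g => ⟨rho g, rho g⁻¹, by
    rw [← map_mul, mul_inv_cancel, map_one], by rw [← map_mul, inv_mul_cancel, map_one]⟩) (fun g => rfl)
  have hu : ∀ g, ((u g : (V →ₗ[ℂ] V)ˣ) : V →ₗ[ℂ] V) = rho g := fun g => rfl
  have hK : K ≤ u.ker := by
    intro k hk
    rw [MonoidHom.mem_ker]
    apply Units.ext
    rw [hu, h k hk]
    rfl
  refine ⟨(Units.coeHom (V →ₗ[ℂ] V)).comp (QuotientGroup.lift K u hK), ?_⟩
  intro g
  simp only [MonoidHom.comp_apply, QuotientGroup.mk'_apply, QuotientGroup.lift_mk, Units.coeHom_apply, hu]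

theorem main (p : ℕ) [hp : Fact p.Prime] (hG : IsPGroup p G) (e : ℕ)
    (hex : ∃ (V : Type) (_ : AddCommGroup V) (_ : Module ℂ V) (_ : FiniteDimensional ℂ V)
      (rho : Representation ℂ G V), rho.IsIrreducible ∧ Module.finrank ℂ V = p ^ e)
    (hmax : ∀ (V : Type) [AddCommGroup V] [Module ℂ V] [FiniteDimensional ℂ V]
      (rho : Representation ℂ G V), rho.IsIrreducible → Module.finrank ℂ V ≤ p ^ e)
    {W : Type} [AddCommGroup W] [Module ℂ W] [FiniteDimensional ℂ W] (sigma : Representation ℂ G W)
    (hs : sigma.IsIrreducible) (g : G) (hg : g ∈ NN G (p ^ e)) (hsg : sigma g ≠ 1) :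
    ∃ a : ℕ, Module.finrank ℂ W = p ^ a ∧ 1 ≤ a ∧ (p ≠ 2 → 2 ≤ a) ∧ a < e := by
  set K : Subgroup G := NN G (p ^ e) ⊓ kerR sigma with hK
  haveI : K.Normal := Subgroup.normal_inf_normal _ _
  letI : Fintype (G ⧸ K) := Fintype.ofFinite _
  set f := QuotientGroup.mk' K with hf
  have hfs : Function.Surjective f := QuotientGroup.mk'_surjective K
  have hQ : IsPGroup p (G ⧸ K) := hG.to_quotient K
  -- the image of NN
  set N' : Subgroup (G ⧸ K) := (NN G (p ^ e)).map f with hN'
  haveI : N'.Normal := Subgroup.Normal.map inferInstance f hfs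
  have hN'ne : N' ≠ ⊥ := by
    intro h
    have h1 : f g ∈ N' := ⟨g, hg, rfl⟩
    rw [h, Subgroup.mem_bot, hf, QuotientGroup.mk'_apply, QuotientGroup.eq_one_iff] at h1
    exact hsg h1.2
  obtain ⟨z, hzN, hz1, hzc⟩ := central_in_normal p hQ N' hN'ne
  obtain ⟨n, hn, hnz⟩ := hzN
  have hmax' : ∀ (V : Type) [AddCommGroup V] [Module ℂ V] [FiniteDimensional ℂ V]
      (rho : Representation ℂ (G ⧸ K) V), rho.IsIrreducible → Module.finrank ℂ V ≤ p ^ e := by
    intro V _ _ _ rho h
    let rho' : Representation ℂ G V := rho.comp f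
    exact hmax V rho' ((irr_pull f hfs rho rho' (fun _ => rfl)).mpr h)
  have hker' : ∀ (V : Type) [AddCommGroup V] [Module ℂ V] [FiniteDimensional ℂ V]
      (rho : Representation ℂ (G ⧸ K) V), rho.IsIrreducible → Module.finrank ℂ V = p ^ e → rho z = 1 := by
    intro V _ _ _ rho h hd
    let rho' : Representation ℂ G V := rho.comp f
    have h1 : rho' n = 1 := hn V rho' ((irr_pull f hfs rho rho' (fun _ => rfl)).mpr h) hd
    rw [← hnz]
    exact h1
  obtain ⟨V, _, _, _, rho, hr, hrd⟩ := hex
  obtain ⟨rho', hrho'⟩ := descend K rho (by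
    intro k hk
    exact hk.1 V rho hr hrd)
  have hr' : rho'.IsIrreducible := (irr_pull f hfs rho' rho hrho').mp hr
  obtain ⟨sigma', hsigma'⟩ := descend K sigma (fun k hk => hk.2)
  have hs' : sigma'.IsIrreducible := (irr_pull f hfs sigma' sigma hsigma').mp hs
  obtain ⟨a, ha⟩ := deg_pow p hG sigma hs
  obtain ⟨c, hc1, hc2, hc3, hc4⟩ := central_scalar sigma' hs' z hzc
  have hcne : c ≠ 1 := by
    rintro rfl
    have h1 : sigma' z = 1 := by rw [hc1, one_smul]; rfl
    rw [← hnz, ← hsigma'] at h1
    have h2 : n ∈ K := ⟨hn, h1⟩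
    apply hz1
    rw [← hnz, hf, QuotientGroup.mk'_apply, QuotientGroup.eq_one_iff]
    exact h2
  have h1 : rho'.character 1 = ((p ^ e : ℕ) : ℂ) := by
    rw [← hrd]
    simp [Representation.character]
  have h2 : sigma'.character 1 = ((p ^ a : ℕ) : ℂ) := by
    rw [← ha]
    simp [Representation.character]
  obtain ⟨k1, k2, k3⟩ := key p hQ z hzc e hmax' hker' ⟨V, inferInstance, inferInstance, inferInstance, rho', hr', rfl⟩ h1
    ⟨W, inferInstance, inferInstance, inferInstance, sigma', hs', rfl⟩ c hc3 hcne a h2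
  exact ⟨a, ha, k1, k2, k3⟩

/-- irreducible representations separate elements from one -/
lemma separate (g : G) (h : ∀ (V : Type) [AddCommGroup V] [Module ℂ V] [FiniteDimensional ℂ V]
      (rho : Representation ℂ G V), rho.IsIrreducible → rho g = 1) : g = 1 := by
  by_contra hne
  set dl : G → ℂ := fun x => if x = 1 then 1 else 0 with hdl
  have hcl : IsClass dl := by
    intro x y
    simp only [hdl]
    have : y * x * y⁻¹ = 1 ↔ x = 1 := by
      constructor
      · intro h1
        have h2 : x = y⁻¹ * (y * x * y⁻¹) * y := by group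
        rw [h2, h1]
        group
      · rintro rfl
        group
    simp only [this]
  have h1 := expand dl hcl
  have h2 : dl g = dl 1 := by
    have e1 := congrFun h1 g
    have e2 := congrFun h1 1
    rw [e1, e2]
    simp only [Finset.sum_apply, Pi.smul_apply]
    refine Finset.sum_congr rfl fun eta heta => ?_
    obtain ⟨V, _, _, _, rho, hr, rfl⟩ := mem_Irr.mp heta
    congr 1
    unfold Representation.character
    rw [h V rho hr, map_one rho]
  simp [hdl, hne] at h2

end Pool.Agent.Helper884.PK
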